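import Mathlib
import Pool.Agent.D0H61.AB.Stm

/-!
# Project AB (helper61), module 4 EUL: the Euler product
-/

set_option autoImplicit false

namespace Pool.Agent.D0H5.AB

open Finset Pool.Agent.D0H61.AB

/-- the summand -/
noncomputable def ff (σ : ℝ) (n : ℕ) : ℝ := (n : ℝ) ^ (-σ) * (rad n : ℝ) ^ (σ - 1)

lemma rad_mul {m n : ℕ} (h : Nat.Coprime m n) : rad (m * n) = rad m * rad n := by
  unfold rad
  rw [Nat.Coprime.primeFactors_mul h, Finset.prod_union h.disjoint_primeFactors]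

lemma ff_mul (σ : ℝ) {m n : ℕ} (h : Nat.Coprime m n) : ff σ (m * n) = ff σ m * ff σ n := by
  unfold ff
  rw [rad_mul h]
  push_cast
  rw [Real.mul_rpow (Nat.cast_nonneg _) (Nat.cast_nonneg _), Real.mul_rpow (Nat.cast_nonneg _) (Nat.cast_nonneg _)]
  ring

lemma ff_zero {σ : ℝ} (hσ : 0 < σ) : ff σ 0 = 0 := by
  unfold ff
  rw [Nat.cast_zero, Real.zero_rpow (by linarith), zero_mul]

lemma ff_one (σ : ℝ) : ff σ 1 = 1 := by
  unfold ff rad
  simp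

lemma ff_pow (σ : ℝ) {p : ℕ} (hp : p.Prime) (e : ℕ) :
    ff σ (p ^ (e + 1)) = (p : ℝ) ^ (σ - 1) * (p : ℝ) ^ (-σ) * ((p : ℝ) ^ (-σ)) ^ e := by
  have hp0 : (0 : ℝ) < p := by exact_mod_cast hp.pos
  unfold ff rad
  rw [Nat.primeFactors_prime_pow (Nat.succ_ne_zero e) hp, Finset.prod_singleton]
  push_cast
  have h1 : ((p : ℝ) ^ (e + 1)) ^ (-σ) = ((p : ℝ) ^ (-σ)) ^ (e + 1) := by
    rw [← Real.rpow_natCast, ← Real.rpow_natCast, ← Real.rpow_mul hp0.le, ← Real.rpow_mul hp0.le, mul_comm]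
  rw [h1, pow_succ]
  ring

lemma ff_hasSum {σ : ℝ} (hσ : 0 < σ) {p : ℕ} (hp : p.Prime) :
    HasSum (fun e : ℕ => ff σ (p ^ e)) (1 + 1 / ((p : ℝ) * (1 - (p : ℝ) ^ (-σ)))) := by
  have hp0 : (0 : ℝ) < p := by exact_mod_cast hp.pos
  have hp1 : (1 : ℝ) < p := by exact_mod_cast hp.one_lt
  have hr0 : 0 < (p : ℝ) ^ (-σ) := Real.rpow_pos_of_pos hp0 _
  have hr1 : (p : ℝ) ^ (-σ) < 1 := Real.rpow_lt_one_of_one_lt_of_neg hp1 (by linarith)
  have hg := (hasSum_geometric_of_lt_one hr0.le hr1).mul_left ((p : ℝ) ^ (σ - 1) * (p : ℝ) ^ (-σ))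
  have h1 : (p : ℝ) ^ (σ - 1) * (p : ℝ) ^ (-σ) * (1 - (p : ℝ) ^ (-σ))⁻¹ = 1 / ((p : ℝ) * (1 - (p : ℝ) ^ (-σ))) := by
    have : (p : ℝ) ^ (σ - 1) * (p : ℝ) ^ (-σ) = (p : ℝ)⁻¹ := by
      rw [← Real.rpow_add hp0, ← Real.rpow_neg_one]
      congr 1
      ring
    rw [this, one_div, mul_inv]
  rw [h1] at hg
  have h2 : HasSum (fun e : ℕ => ff σ (p ^ (e + 1))) (1 / ((p : ℝ) * (1 - (p : ℝ) ^ (-σ)))) := by
    have : (fun e : ℕ => ff σ (p ^ (e + 1))) =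
        fun e : ℕ => (p : ℝ) ^ (σ - 1) * (p : ℝ) ^ (-σ) * ((p : ℝ) ^ (-σ)) ^ e := funext (ff_pow σ hp)
    rw [this]
    exact hg
  have h3 := (hasSum_nat_add_iff (f := fun e : ℕ => ff σ (p ^ e)) 1).mp h2
  rw [Finset.sum_range_one, pow_zero, ff_one, add_comm] at h3
  exact h3

lemma ff_nonneg (σ : ℝ) (n : ℕ) : 0 ≤ ff σ n := by
  unfold ff
  positivity

theorem t_EUL : S_EUL := by
  intro σ hσ _ N
  have hs : ∀ {p : ℕ}, p.Prime → Summable (fun n : ℕ => ‖ff σ (p ^ n)‖) := by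
    intro p hp
    have := (ff_hasSum hσ hp).summable
    have h2 : (fun n : ℕ => ‖ff σ (p ^ n)‖) = fun n : ℕ => ff σ (p ^ n) := by
      funext n
      rw [Real.norm_of_nonneg (ff_nonneg _ _)]
    rw [h2]
    exact this
  have key := (EulerProduct.summable_and_hasSum_smoothNumbers_prod_primesBelow_tsum (f := ff σ) (ff_one σ)
    (fun {m n} h => ff_mul σ h) hs (N + 1)).2
  have hprod : ∏ p ∈ (N + 1).primesBelow, ∑' n : ℕ, ff σ (p ^ n) =
      ∏ p ∈ (Icc 1 N).filter Nat.Prime, (1 + 1 / ((p : ℝ) * (1 - (p : ℝ) ^ (-σ)))) := by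
    have he : (N + 1).primesBelow = (Icc 1 N).filter Nat.Prime := by
      ext p
      rw [Nat.mem_primesBelow, Finset.mem_filter, Finset.mem_Icc]
      constructor
      · rintro ⟨h1, h2⟩
        exact ⟨⟨h2.one_lt.le, by omega⟩, h2⟩
      · rintro ⟨⟨_, h1⟩, h2⟩
        exact ⟨by omega, h2⟩
    rw [he]
    refine Finset.prod_congr rfl fun p hp => ?_
    exact (ff_hasSum hσ (Finset.mem_filter.mp hp).2).tsum_eq
  rw [hprod] at key
  have hmem : ∀ n ∈ Icc 1 N, n ∈ (N + 1).smoothNumbers := by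
    intro n hn
    rw [Finset.mem_Icc] at hn
    exact Nat.mem_smoothNumbers_of_lt (by omega) (by omega)
  classical
  have h4 := sum_le_hasSum ((Icc 1 N).subtype (· ∈ (N + 1).smoothNumbers))
    (fun i _ => ff_nonneg σ (i : ℕ)) key
  refine le_trans (le_of_eq ?_) h4
  rw [Finset.sum_subtype_of_mem (fun n => ff σ n) hmem]
  rfl

end Pool.Agent.D0H5.AB
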